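import Pool.Agent.Run7.h987.RT.Iface

/-!
# Piece BAIRE of helper987's project RT (MP_fc1499_an)
-/

set_option autoImplicit false

open MeasureTheory Set SchwartzMap
open scoped FourierTransform SchwartzMap ContDiff Pointwise Topology ENNReal
open scoped BoundedContinuousFunction

noncomputable section

namespace Run7.h697.RT

open Pool.Agent.Run7.h987.BL Pool.Agent.Run7.h987.RT

universe u

section

variable {k : ℕ} {X : Type u} [MetricSpace X]

/-- pairing with a Schwartz function is continuous in the sup metric -/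
lemma continuous_pair (x : X) (u : 𝓢(E k, ℂ)) :
    Continuous fun f : X × E k →ᵇ ℂ => ∫ t, f (x, t) * u t := by
  have hI : 0 ≤ ∫ t, ‖u t‖ := integral_nonneg fun t => norm_nonneg _
  have hBC : ∀ f : X × E k →ᵇ ℂ, Integrable (fun t => f (x, t) * u t) := fun f =>
    (BC.integrable (C := ‖f‖) ⟨by fun_prop, fun t => f.norm_coe_le_norm _⟩ u)
  refine (LipschitzWith.of_dist_le_mul (K := ⟨_, hI⟩) fun f g => ?_).continuous
  rw [dist_eq_norm, ← integral_sub (hBC f) (hBC g)]
  change _ ≤ (∫ t, ‖u t‖) * dist f g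
  rw [mul_comm, ← integral_const_mul]
  refine norm_integral_le_of_norm_le (u.integrable.norm.const_mul _) ?_
  refine Filter.Eventually.of_forall fun t => ?_
  rw [← sub_mul, norm_mul]
  refine mul_le_mul_of_nonneg_right ?_ (norm_nonneg _)
  rw [← dist_eq_norm]
  exact BoundedContinuousFunction.dist_coe_le_dist _

variable [AddAction (Zk k) X]

variable (X) in
/-- the family of equivariant band-limited functions bounded by one -/
def Fam (S : Set (E k)) : Set (X × E k →ᵇ ℂ) :=
  {f | (∀ p, ‖f p‖ ≤ 1) ∧ (∀ (q : Zk k) x t, f (q +ᵥ x, t) = f (x, t + vec q)) ∧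
    ∀ x, SpecIn (fun t => f (x, t)) S}

lemma isClosed_Fam (S : Set (E k)) : IsClosed (Fam X S) := by
  have e : ∀ p : X × E k, Continuous fun f : X × E k →ᵇ ℂ => f p := fun p =>
    continuous_eval_const p
  refine IsClosed.and ?_ (IsClosed.and ?_ ?_)
  · simp only [ofPred_forall]
    exact isClosed_iInter fun p => isClosed_le (e p).norm continuous_const
  · simp only [ofPred_forall]
    exact isClosed_iInter fun q => isClosed_iInter fun x => isClosed_iInter fun t =>
      isClosed_eq (e _) (e _)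
  · simp only [SpecIn, ofPred_forall]
    exact isClosed_iInter fun x => isClosed_iInter fun u => isClosed_iInter fun _ =>
      isClosed_eq (continuous_pair x (𝓕 u)) continuous_const

end

section

variable {k : ℕ} {X : Type u} [MetricSpace X] [CompactSpace X]

/-- functions which separate the points of the fibres of `F0` up to `ε` -/
def Sep (F0 : X → C(E k, ℂ)) (ε : ℝ) : Set (X × E k →ᵇ ℂ) :=
  {f | ∀ x y, F0 x = F0 y → (∀ t, f (x, t) = f (y, t)) → dist x y < ε}

lemma isOpen_Sep {F0 : X → C(E k, ℂ)} (h0 : Continuous F0) (ε : ℝ) : IsOpen (Sep F0 ε) := by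
  rw [Metric.isOpen_iff]
  intro f hf
  let Z : Set (X × X) := {z | F0 z.1 = F0 z.2 ∧ ε ≤ dist z.1 z.2}
  have hZ : IsCompact Z := by
    refine IsClosed.isCompact (IsClosed.and ?_ ?_)
    · exact isClosed_eq (h0.comp continuous_fst) (h0.comp continuous_snd)
    · exact isClosed_le continuous_const continuous_dist
  let U : ℕ → Set (X × X) := fun n => {z | ∃ t, 1 / ((n : ℝ) + 1) < ‖f (z.1, t) - f (z.2, t)‖}
  have hU : ∀ n, IsOpen (U n) := by
    intro n
    simp only [U, ofPred_exists]
    refine isOpen_iUnion fun t => isOpen_lt continuous_const ?_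
    fun_prop
  have hcov : Z ⊆ ⋃ n, U n := by
    intro z hz
    have : ∃ t, f (z.1, t) ≠ f (z.2, t) := by
      by_contra hcon
      push Not at hcon
      exact absurd (hf z.1 z.2 hz.1 hcon) (not_lt.mpr hz.2)
    obtain ⟨t, ht⟩ := this
    obtain ⟨n, hn⟩ := exists_nat_one_div_lt (norm_pos_iff.mpr (sub_ne_zero.mpr ht))
    exact mem_iUnion.mpr ⟨n, t, hn⟩
  have hmono : Directed (· ⊆ ·) U := by
    refine directed_of_isDirected_le fun m n hmn z hz => ?_
    obtain ⟨t, ht⟩ := hz
    refine ⟨t, lt_of_le_of_lt ?_ ht⟩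
    have : (m : ℝ) ≤ n := by exact_mod_cast hmn
    exact one_div_le_one_div_of_le (by positivity) (by linarith)
  obtain ⟨n, hn⟩ := hZ.elim_directed_cover U hU hcov hmono
  have hc : (0 : ℝ) < 1 / ((n : ℝ) + 1) := by positivity
  set c : ℝ := 1 / ((n : ℝ) + 1) with hcdef
  refine ⟨c / 3, by positivity, fun g hg x y hxy heq => ?_⟩
  by_contra hcon
  push Not at hcon
  obtain ⟨t, ht⟩ := hn (show (x, y) ∈ Z from ⟨hxy, hcon⟩)
  have ht' : c < ‖f (x, t) - f (y, t)‖ := ht
  rw [Metric.mem_ball, dist_comm] at hg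
  have h1 : ‖f (x, t) - g (x, t)‖ ≤ dist f g := by
    rw [← dist_eq_norm]; exact BoundedContinuousFunction.dist_coe_le_dist _
  have h2 : ‖f (y, t) - g (y, t)‖ ≤ dist f g := by
    rw [← dist_eq_norm]; exact BoundedContinuousFunction.dist_coe_le_dist _
  have h3 : f (x, t) - f (y, t) = (f (x, t) - g (x, t)) - (f (y, t) - g (y, t)) := by
    rw [heq t]; ring
  have h4 := norm_sub_le (f (x, t) - g (x, t)) (f (y, t) - g (y, t))
  rw [← h3] at h4
  linarith

end

theorem t_BAIRE : P_BAIRE.{u} := by
  intro k X _ _ _ S F0 h0 H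
  have : CompleteSpace (Fam X S) := (isClosed_Fam S).completeSpace_coe
  let O : ℕ → Set (Fam X S) := fun n => Subtype.val ⁻¹' Sep F0 (1 / ((n : ℝ) + 1))
  have hO : ∀ n, IsOpen (O n) := fun n => (isOpen_Sep h0 _).preimage continuous_subtype_val
  have hD : ∀ n, Dense (O n) := by
    intro n
    rw [Metric.dense_iff]
    intro f η hη
    obtain ⟨hf1, hf2, hf3⟩ := f.2
    let F : X → C(E k, ℂ) := fun x => (f.1.toContinuousMap).curry x
    have hF : Sig S 1 F :=
      { cont := (f.1.toContinuousMap).curry.continuous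
        bdd := fun x t => hf1 (x, t)
        spec := fun x => hf3 x
        equi := fun q x t => hf2 q x t }
    obtain ⟨g, hg, hgF, hgs⟩ := H F (η / 2) (1 / ((n : ℝ) + 1)) (by positivity) (by positivity) hF
    have hgc : Continuous fun p : X × E k => g p.1 p.2 :=
      (ContinuousMap.uncurry (⟨g, hg.cont⟩ : C(X, C(E k, ℂ)))).continuous
    let G : X × E k →ᵇ ℂ :=
      BoundedContinuousFunction.ofNormedAddCommGroup (fun p => g p.1 p.2) hgc 1
        (fun p => hg.bdd p.1 p.2)
    have hG : G ∈ Fam X S :=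
      ⟨fun p => hg.bdd p.1 p.2, fun q x t => hg.equi q x t, fun x => hg.spec x⟩
    refine ⟨⟨G, hG⟩, ?_, ?_⟩
    · rw [Metric.mem_ball, Subtype.dist_eq]
      have h1 : dist G f.1 ≤ η / 2 := by
        rw [BoundedContinuousFunction.dist_le (by positivity)]
        intro p
        rw [dist_eq_norm]
        exact hgF p.1 p.2
      exact lt_of_le_of_lt h1 (by linarith)
    · intro x y hxy heq
      exact hgs x y hxy (ContinuousMap.ext heq)
  have hne : (Set.univ : Set (Fam X S)).Nonempty := by
    refine ⟨⟨0, fun p => by simp, fun q x t => by simp, fun x u _ => by simp⟩, mem_univ _⟩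
  have : Nonempty (Fam X S) := ⟨hne.some⟩
  obtain ⟨f, hf⟩ := (dense_iInter_of_isOpen_nat hO hD).nonempty
  obtain ⟨hf1, hf2, hf3⟩ := f.2
  refine ⟨fun x => (f.1.toContinuousMap).curry x,
    { cont := (f.1.toContinuousMap).curry.continuous
      bdd := fun x t => hf1 (x, t)
      spec := fun x => hf3 x
      equi := fun q x t => hf2 q x t }, fun x y hxy hg => ?_⟩
  have hlt : ∀ n : ℕ, dist x y < 1 / ((n : ℝ) + 1) := by
    intro n
    have h1 := mem_iInter.mp hf n
    exact h1 x y hxy fun t => DFunLike.congr_fun hg t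
  by_contra hne'
  obtain ⟨n, hn⟩ := exists_nat_one_div_lt (dist_pos.mpr hne')
  exact absurd (hlt n) (not_lt.mpr hn.le)

end Run7.h697.RT
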